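import Pool.Agent.Y245.SG.Stm

/-!
Project SG, pieces STEP and SOL1: the derivative of the forms, and the first solution.
-/

set_option autoImplicit false

open Complex Polynomial Filter Topology
open Pool.Agent.Y245.SG

namespace Pool.Agent.Y468.SG

theorem aeval_step (N : ℕ) (P : ℕ → ℤ[X]) (E : ℂ) (i : ℕ) :
    aeval E (step N P i) = E * aeval E (derivative (P i)) - ((N : ℂ) - i) * aeval E (P i)
      - ((i : ℂ) + 1) * (E * aeval E (P (i + 1))) +
      (match i with
        | 0 => 0
        | j + 1 => ((N : ℂ) - j) * aeval E (P j)) := by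
  unfold step
  cases i with
  | zero => simp
  | succ j => simp

theorem step_thm : S_STEP := by
  intro N P x y hP hS
  constructor
  · intro i hi
    unfold step
    cases i with
    | zero => omega
    | succ j =>
      rw [hP (j + 1) hi, hP (j + 1 + 1) (by omega)]
      rcases Nat.lt_or_ge N j with h | h
      · simp [hP j h]
      · have : j = N := by omega
        subst this
        simp
  · intro w
    obtain ⟨hx, hy⟩ := hS w
    have hE : HasDerivAt Complex.exp (Complex.exp w) w := Complex.hasDerivAt_exp w
    have hp : ∀ i, HasDerivAt (fun w => aeval (Complex.exp w) (P i))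
        (aeval (Complex.exp w) (derivative (P i)) * Complex.exp w) w := by
      intro i
      exact ((P i).hasDerivAt_aeval (Complex.exp w)).comp w hE
    have h1 : HasDerivAt (lamG N P x y) (∑ i ∈ Finset.range (N + 1),
        ((aeval (Complex.exp w) (derivative (P i)) * Complex.exp w * x w ^ i +
          aeval (Complex.exp w) (P i) * ((i : ℂ) * x w ^ (i - 1) * (-(Complex.exp w) * y w))) *
            y w ^ (N - i) +
          aeval (Complex.exp w) (P i) * x w ^ i *
            (((N - i : ℕ) : ℂ) * y w ^ (N - i - 1) * (x w - y w)))) w := by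
      unfold lamG
      apply HasDerivAt.fun_sum
      intro i _
      exact (((hp i).mul (hx.pow i)).mul (hy.pow (N - i)))
    have h2 : (∑ i ∈ Finset.range (N + 1),
        ((aeval (Complex.exp w) (derivative (P i)) * Complex.exp w * x w ^ i +
          aeval (Complex.exp w) (P i) * ((i : ℂ) * x w ^ (i - 1) * (-(Complex.exp w) * y w))) *
            y w ^ (N - i) +
          aeval (Complex.exp w) (P i) * x w ^ i *
            (((N - i : ℕ) : ℂ) * y w ^ (N - i - 1) * (x w - y w)))) =
        lamG N (step N P) x y w := by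
      unfold lamG
      generalize Complex.exp w = E
      generalize x w = a
      generalize y w = b
      obtain ⟨p, hp⟩ : ∃ p : ℕ → ℂ, ∀ i, p i = aeval E (P i) := ⟨_, fun _ => rfl⟩
      obtain ⟨p', hp'⟩ : ∃ p' : ℕ → ℂ, ∀ i, p' i = aeval E (derivative (P i)) :=
        ⟨_, fun _ => rfl⟩
      obtain ⟨U, hU⟩ : ∃ U : ℕ → ℂ, ∀ i, U i =
        (E * p' i - ((N : ℂ) - i) * p i) * a ^ i * b ^ (N - i) := ⟨_, fun _ => rfl⟩
      obtain ⟨F, hF⟩ : ∃ F : ℕ → ℂ, ∀ i, F i =
        (i : ℂ) * E * p i * a ^ (i - 1) * b ^ (N - i + 1) := ⟨_, fun _ => rfl⟩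
      obtain ⟨F', hF'⟩ : ∃ F : ℕ → ℂ, ∀ i, F i =
        ((i : ℂ) + 1) * (E * p (i + 1)) * a ^ i * b ^ (N - i) := ⟨_, fun _ => rfl⟩
      obtain ⟨G, hG⟩ : ∃ F : ℕ → ℂ, ∀ i, F i =
        ((N : ℂ) - i) * p i * a ^ (i + 1) * b ^ (N - i - 1) := ⟨_, fun _ => rfl⟩
      obtain ⟨G', hG'⟩ : ∃ F : ℕ → ℂ, ∀ i, F i =
        (match i with
          | 0 => 0
          | j + 1 => ((N : ℂ) - j) * p j) * a ^ i * b ^ (N - i) := ⟨_, fun _ => rfl⟩
      have e1 : ∑ i ∈ Finset.range (N + 1), F i = ∑ i ∈ Finset.range (N + 1), F' i := by
        rw [Finset.sum_range_succ', Finset.sum_range_succ F', hF 0, hF' N, hp (N + 1),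
          hP (N + 1) (by omega)]
        simp only [Nat.cast_zero, zero_mul, add_zero, map_zero, mul_zero]
        apply Finset.sum_congr rfl
        intro i hi
        rw [Finset.mem_range] at hi
        rw [hF, hF', show N - (i + 1) + 1 = N - i by omega, Nat.add_sub_cancel]
        push_cast
        ring
      have e2 : ∑ i ∈ Finset.range (N + 1), G i = ∑ i ∈ Finset.range (N + 1), G' i := by
        rw [Finset.sum_range_succ, Finset.sum_range_succ' G', hG N, hG' 0]
        simp only [sub_self, zero_mul, add_zero]
        apply Finset.sum_congr rfl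
        intro i hi
        rw [hG, hG']
        rw [show N - i - 1 = N - (i + 1) by omega]
      have e3 : ∀ i ∈ Finset.range (N + 1), ((p' i * E * a ^ i +
          p i * ((i : ℂ) * a ^ (i - 1) * (-E * b))) * b ^ (N - i) +
          p i * a ^ i * (((N - i : ℕ) : ℂ) * b ^ (N - i - 1) * (a - b))) =
          U i - F i + G i := by
        intro i hi
        rw [Finset.mem_range] at hi
        rw [hU, hF, hG, Nat.cast_sub (by omega : i ≤ N)]
        rcases Nat.lt_or_ge i N with h | h
        · obtain ⟨m, hm⟩ : ∃ m, N - i = m + 1 := ⟨N - i - 1, by omega⟩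
          rw [hm, Nat.add_sub_cancel]
          ring
        · have : i = N := by omega
          subst this
          simp only [Nat.sub_self, sub_self]
          ring
      have e4 : ∀ i ∈ Finset.range (N + 1), aeval E (step N P i) * a ^ i * b ^ (N - i) =
          U i - F' i + G' i := by
        intro i _
        rw [aeval_step, hU, hF', hG', ← hp, ← hp']
        cases i with
        | zero => simp only [hp]; ring
        | succ j => simp only [hp]; ring
      simp only [← hp, ← hp']
      rw [Finset.sum_congr rfl e3, Finset.sum_congr rfl e4, Finset.sum_add_distrib,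
        Finset.sum_sub_distrib, Finset.sum_add_distrib, Finset.sum_sub_distrib, e1, e2]
    rw [h2] at h1
    exact h1

theorem sol1 : S_SOL1 := by
  intro hB w
  have hE : HasDerivAt Complex.exp (Complex.exp w) w := Complex.hasDerivAt_exp w
  constructor
  · have h := ((hB 0).2.2.1 (Complex.exp w)).comp w hE
    have h' : -Bn (0 + 1) (Complex.exp w) * Complex.exp w =
        -(Complex.exp w) * Bn 1 (Complex.exp w) := by
      rw [zero_add]
      ring
    rw [h'] at h
    exact h
  · have h := ((hB 1).2.2.1 (Complex.exp w)).comp w hE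
    have h1 := (hB 0).2.2.2 (Complex.exp w)
    have h' : -Bn (1 + 1) (Complex.exp w) * Complex.exp w =
        Bn 0 (Complex.exp w) - Bn 1 (Complex.exp w) := by
      rw [Nat.zero_add, Nat.zero_add] at h1
      rw [show (1 + 1 : ℕ) = 2 from rfl]
      push_cast at h1
      linear_combination -h1
    rw [h'] at h
    exact h

end Pool.Agent.Y468.SG
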